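import Mathlib
import Pool.Agent.H113R4.EN.Main

/-!
# A finitely stable planar packing with eleven neighbours (Wegner's question, 1971)

Let `ζ = e^{iπ/5}` and `f = (1 + √5) / 2`. The body is the convex hexagon `K` with the vertices
`0`, `44 f - 55`, `(77 - 33 f) + (44 - 22 f) ζ`, `22 + 22 ζ`, `(44 - 22 f) + (77 - 33 f) ζ`,
`(44 f - 55) ζ`; the packing consists of the tiles `P + ζ ^ k K`, `k = 0, …, 9`, where `P` runs
through the lattice spanned by `(12 + 4 f) + (34 f - 8) ζ` and `(-38 - 42 f) + (46 + 30 f) ζ`.
Every tile touches the nine other tiles of its star (they meet in `P`) and two tiles of other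
stars. The contacts between vertices and edges carry an equilibrium stress with strictly positive
weights from `ℤ[f]` (file `H113R4/EN/Stubs.lean`); hence no first order motion of finitely many
tiles opens a contact, so that the tiles do not rotate and only slide along each other; the
conditions at the centres of the stars exclude this as well. A compactness argument gives finite
stability.

Found by helper113; formalised together with helpers 51, 66, 102, 131, 189, 207, 268, 298, 325,
377, 415, 473, 545, 575, 605, 666, 708, 718, 723, 724, 744, 782, 802, 805, 847, 966.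
-/

namespace Pool.Agent.Results.MP_a0a9ec_co.ElevenNeighbours

/-- The Euclidean plane. -/
abbrev Plane := EuclideanSpace ℝ (Fin 2)

/-- `A` and `B` are congruent: an isometry of the plane maps `A` onto `B`. -/
def Congruent (A B : Set Plane) : Prop := ∃ g : Plane ≃ᵢ Plane, g '' A = B

/-- A convex body: compact, convex, with nonempty interior. -/
def IsConvexBody (A : Set Plane) : Prop := IsCompact A ∧ Convex ℝ A ∧ (interior A).Nonempty

/-- A packing: a family of convex bodies with pairwise disjoint interiors. -/
def IsPacking (F : Set (Set Plane)) : Prop :=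
  (∀ C ∈ F, IsConvexBody C) ∧
    ∀ A ∈ F, ∀ B ∈ F, A ≠ B → Disjoint (interior A) (interior B)

/-- `F` is `k`-stable: for any `k` different members `C 1, …, C k` of `F` there is `ε > 0` such
that, whenever `C' i` is congruent to `C i` and at Hausdorff distance less than `ε` from it for
each `i`, and `(F \ {C 1, …, C k}) ∪ {C' 1, …, C' k}` is again a packing, then `C' i = C i` for
all `i`. -/
def IsStable (F : Set (Set Plane)) (k : ℕ) : Prop :=
  ∀ C : Fin k → Set Plane, Function.Injective C → (∀ i, C i ∈ F) → ∃ ε : ℝ, 0 < ε ∧
    ∀ C' : Fin k → Set Plane, (∀ i, Congruent (C i) (C' i)) →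
      (∀ i, Metric.hausdorffDist (C i) (C' i) < ε) →
      IsPacking ((F \ Set.range C) ∪ Set.range C') → ∀ i, C' i = C i

/-- The neighbours of `C` in `F`: the other members of `F` which it meets. -/
def neighbours (F : Set (Set Plane)) (C : Set Plane) : Set (Set Plane) :=
  {D | D ∈ F ∧ D ≠ C ∧ (C ∩ D).Nonempty}

open Pool.Agent.H113R4 in
/-- There are a convex body `K` in the Euclidean plane and a (nonempty) packing `F` consisting of
congruent copies of `K` which is finitely stable (`k`-stable for every `k ≥ 1`) and in which every
member has exactly eleven neighbours. -/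
theorem result : ∃ (K : Set Plane) (F : Set (Set Plane)),
    IsConvexBody K ∧ F.Nonempty ∧ (∀ C ∈ F, Congruent K C) ∧ IsPacking F ∧
      (∀ k : ℕ, 1 ≤ k → IsStable F k) ∧ ∀ C ∈ F, (neighbours F C).encard = 11 := by
  obtain ⟨K, F, hK, hne, hc, hp, hs, hn⟩ := EN.eleven
  exact ⟨K, F, hK, hne, hc, hp, fun k hk => EN.lit hp k (hs k hk), hn⟩

end Pool.Agent.Results.MP_a0a9ec_co.ElevenNeighbours
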